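import Mathlib
import Pool.Agent.Helper550.Semi
set_option autoImplicit false
open scoped ENNReal Nat NNRat

namespace Pool.Agent.Results.MP_fd6f9a_an.ClassVNotVI
open Pool.Agent.Helper550.Semi

/-- There is an infinite-dimensional commutative radical Banach algebra `R` (complex, without unit, every element
has spectral radius zero) which contains a nonzero `a` in the closure of `a^2 R`, and a nonzero semigroup indexed by
the positive rationals, but contains no nonzero norm-continuous real semigroup. -/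
theorem result :
    ∃ (R : Type) (_ : NonUnitalNormedCommRing R) (_ : NormedSpace ℂ R) (_ : IsScalarTower ℂ R R)
      (_ : SMulCommClass ℂ R R) (_ : CompleteSpace R),
      ¬ FiniteDimensional ℂ R ∧
      (¬ ∃ u : R, ∀ x : R, u * x = x) ∧
      (∀ x : R, spectralRadius ℂ (Unitization.inr x : Unitization ℂ R) = 0) ∧
      (∃ a : R, a ≠ 0 ∧ a ∈ closure {y : R | ∃ x : R, y = a * a * x}) ∧
      (∃ c : ℚ → R, (∀ s t : ℚ, 0 < s → 0 < t → c (s + t) = c s * c t) ∧ ∃ t : ℚ, 0 < t ∧ c t ≠ 0) ∧
      ¬ ∃ b : ℝ → R, (∀ s t : ℝ, 0 < s → 0 < t → b (s + t) = b s * b t) ∧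
        (∃ t : ℝ, 0 < t ∧ b t ≠ 0) ∧ ContinuousOn b (Set.Ioi 0) := by
  obtain ⟨W, A, _, _, _, e, h, R, _, _, _, _, _, j, hQ, hj1, hj2, hinj, hspec, hno⟩ := exists_R
  -- preimages
  have hpre : ∀ s : ℚ≥0, ∃ x : R, s ≠ 0 → j x = dl W e s := by
    intro s
    by_cases hs : s = 0
    · exact ⟨0, fun h => absurd hs h⟩
    · obtain ⟨x, hx⟩ := (hj2 (dl W e s)).mpr (h.chi_dl hs)
      exact ⟨x, fun _ => hx⟩
  choose p hp using hpre
  refine ⟨R, inferInstance, inferInstance, inferInstance, inferInstance, inferInstance, ?_, ?_, ?_, ?_, ?_, hno⟩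
  · -- infinite dimension
    intro hfin
    have hli : LinearIndependent ℂ (fun k : ℕ => p ((k : ℚ≥0) + 1)) := by
      rw [linearIndependent_iff']
      intro s g hg i hi
      have h1 := congrArg (fun x => co ((i : ℚ≥0) + 1) (e (j x))) hg
      simp only [map_sum, map_smul, map_zero] at h1
      rw [Finset.sum_eq_single i] at h1
      · rw [hp _ (by positivity), h.e_dl, map_smul, co_sg_self, smul_eq_mul, smul_eq_mul, mul_one,
          mul_eq_zero] at h1
        rcases h1 with h1 | h1
        · exact h1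
        · exact absurd (Complex.ofReal_eq_zero.mp h1) (h.weight.pos _).ne'
      · intro k _ hk
        rw [hp _ (by positivity), h.e_dl, map_smul, co_sg_ne, smul_zero, smul_zero]
        intro hik
        apply hk
        have h2 := add_right_cancel hik
        exact_mod_cast h2.symm
      · intro h; exact absurd hi h
    have := hli.finite
    exact not_finite ℕ
  · rintro ⟨u, hu⟩
    have h1 : u * u = u := hu u
    have h2 : j u * j (p 1) = j (p 1) := by rw [← map_mul, hu]
    have h3 : IsUnit (1 - j u) := by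
      rw [h.isUnit_iff, map_sub, map_one, (hj2 _).mp ⟨u, rfl⟩, sub_zero]
      exact one_ne_zero
    have h4 : (1 - j u) * j (p 1) = 0 := by rw [sub_mul, one_mul, h2, sub_self]
    rw [h3.mul_right_eq_zero, hp 1 one_ne_zero] at h4
    exact h.dl_ne_zero _ h4
  · intro x
    unfold spectralRadius
    simp only [ENNReal.iSup_eq_zero]
    intro μ hμ
    have h1 : μ = 0 := hspec x hμ
    rw [h1]
    simp
  · obtain ⟨a, ha0, hachi, ha⟩ := h.exists_classV
    obtain ⟨x, hx⟩ := (hj2 a).mpr hachi
    refine ⟨x, ?_, ?_⟩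
    · rintro rfl
      rw [map_zero] at hx
      exact ha0 hx.symm
    · rw [Metric.mem_closure_iff]
      intro ε hε
      obtain ⟨z, hz, hlt⟩ := ha ε hε
      obtain ⟨y, hy⟩ := (hj2 z).mpr hz
      refine ⟨x * x * y, ⟨y, rfl⟩, ?_⟩
      rw [dist_eq_norm, hj1, map_sub, map_mul, map_mul, hx, hy]
      exact hlt
  · refine ⟨fun s => p s.toNNRat, fun s t hs ht => ?_, 1, one_pos, ?_⟩
    · apply hinj
      rw [map_mul, hp _ (Rat.toNNRat_pos.mpr (add_pos hs ht)).ne', hp _ (Rat.toNNRat_pos.mpr hs).ne',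
        hp _ (Rat.toNNRat_pos.mpr ht).ne', Rat.toNNRat_add hs.le ht.le, h.dl_add]
    · intro h0
      have h1 := hp (1 : ℚ).toNNRat (Rat.toNNRat_pos.mpr one_pos).ne'
      have h0' : p (Rat.toNNRat 1) = 0 := h0
      rw [h0', map_zero] at h1
      exact h.dl_ne_zero _ h1.symm

end Pool.Agent.Results.MP_fd6f9a_an.ClassVNotVI
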